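import Pool.Agent.W40.Ch.A10

/-!
Chamberland's map: a power rate for the proportions of invariant sets in the unit intervals.
-/

set_option autoImplicit false

namespace Pool.Agent.TH237.CH

open Real Set MeasureTheory Filter Topology
open Pool.Agent.W40.Ch

/-- one contraction step for the oscillation -/
theorem osc_step {u : ℕ → ℝ} {C a b : ℝ} {L : ℕ} (hL : 1000 ≤ L) (hC : 0 ≤ C)
    (h0 : ∀ k, 0 ≤ u k) (h1 : ∀ k, u k ≤ 1) (hu : ∀ m, L ≤ m → |u m - P u m| ≤ C * g m)
    (hab : ∀ k, L / 2 ≤ k → a ≤ u k ∧ u k ≤ b) :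
    ∃ a' b' : ℝ, b' - a' ≤ (1 - 1 / 1920) * (b - a) + 102 * (C * g L) ∧
      ∀ k, L ≤ k → a' ≤ u k ∧ u k ≤ b' := by
  have hL' : (1000 : ℝ) ≤ L := by exact_mod_cast hL
  have hCg : 0 ≤ C * g L := mul_nonneg hC (g_nonneg L)
  have hba : 0 ≤ b - a := by
    have := hab L (by omega)
    linarith
  have hlo := contraction (v := fun k => u k - a) (C := C) (M := -a) (L := L)
    hL hC (fun k => by have := h0 k; linarith)
    (fun k hk => by have := (hab k hk).1; linarith)
    (fun m hm => by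
      rw [P_sub, P_const]
      have := abs_le.1 (hu m hm)
      linarith [this.1, this.2])
  have hhi := contraction (v := fun k => b - u k) (C := C) (M := b - 1) (L := L)
    hL hC (fun k => by have := h1 k; linarith)
    (fun k hk => by have := (hab k hk).2; linarith)
    (fun m hm => by
      rw [P_sub, P_const]
      have := abs_le.1 (hu m hm)
      linarith [this.1, this.2])
  set s := (∑ k ∈ J1 L, (u k - a)) / (3 * L) with hs
  set s' := (∑ k ∈ J1 L, (b - u k)) / (3 * L) with hs'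
  have hsum : (b - a) / 24 ≤ s + s' := by
    rw [hs, hs', ← add_div, ← Finset.sum_add_distrib]
    have e : ∑ k ∈ J1 L, (u k - a + (b - u k)) = (J1 L).card * (b - a) := by
      rw [← nsmul_eq_mul, ← Finset.sum_const]
      apply Finset.sum_congr rfl
      intro k _; ring
    rw [e, le_div_iff₀ (by positivity)]
    have h6 := J1_card hL
    have h7 : (L : ℝ) / 8 * (b - a) ≤ (J1 L).card * (b - a) :=
      mul_le_mul_of_nonneg_right h6 hba
    refine le_trans (le_of_eq ?_) h7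
    ring
  by_cases hcase : (b - a) / 48 ≤ s
  · refine ⟨a + (b - a) / 1920 - 102 * (C * g L), b, by linarith, fun k hk => ⟨?_, ?_⟩⟩
    · have := hlo k hk
      linarith
    · exact (hab k (by omega)).2
  · rw [not_le] at hcase
    refine ⟨a, b - (b - a) / 1920 + 102 * (C * g L), by linarith, fun k hk => ⟨?_, ?_⟩⟩
    · exact (hab k (by omega)).1
    · have := hhi k hk
      linarith

theorem two_pow : (2.0001 : ℝ) ^ (1 / 2000 : ℝ) ≤ 1.00035 := by
  have h1 : (1.007 : ℝ) ≤ 1.00035 ^ 20 := by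
    have := one_add_mul_le_pow (a := (0.00035 : ℝ)) (by norm_num) 20
    norm_num at this ⊢
  have h2 : (2.0001 : ℝ) ≤ 1.007 ^ 100 := by norm_num
  have h3 : (2.0001 : ℝ) ≤ 1.00035 ^ 2000 := by
    calc (2.0001 : ℝ) ≤ 1.007 ^ 100 := h2
      _ ≤ (1.00035 ^ 20) ^ 100 := pow_le_pow_left₀ (by norm_num) h1 100
      _ = 1.00035 ^ 2000 := by rw [← pow_mul]
  calc (2.0001 : ℝ) ^ (1 / 2000 : ℝ) ≤ ((1.00035 : ℝ) ^ 2000) ^ (1 / 2000 : ℝ) :=
        Real.rpow_le_rpow (by norm_num) h3 (by norm_num)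
    _ = 1.00035 := by
        rw [← Real.rpow_natCast, ← Real.rpow_mul (by norm_num)]
        norm_num

/-- the oscillation decays like a power -/
theorem osc {u : ℕ → ℝ} (h0 : ∀ k, 0 ≤ u k) (h1 : ∀ k, u k ≤ 1)
    (hu : ∀ m, 13824 ≤ m → |u m - P u m| ≤ 22 * g m) (m : ℕ) : 1 ≤ m → ∃ a b : ℝ,
      b - a ≤ 2 * 10 ^ 7 * (m : ℝ) ^ (-(1 / 2000) : ℝ) ∧ ∀ k, m ≤ k → a ≤ u k ∧ u k ≤ b := by
  induction m using Nat.strong_induction_on with
  | _ m ih =>
    intro hm
    have hm1 : (1 : ℝ) ≤ m := by exact_mod_cast hm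
    have hmp : (0 : ℝ) < m := by linarith
    rcases lt_or_ge m 27648 with hlt | hge
    · refine ⟨0, 1, ?_, fun k _ => ⟨h0 k, h1 k⟩⟩
      have h2 : ((27648 : ℝ)) ^ (-(1 / 2000) : ℝ) ≤ (m : ℝ) ^ (-(1 / 2000) : ℝ) := by
        apply Real.rpow_le_rpow_of_nonpos hmp
        · have : m ≤ 27648 := by omega
          exact_mod_cast this
        · norm_num
      have h3 : (27648 : ℝ) ^ (-1 : ℝ) ≤ (27648 : ℝ) ^ (-(1 / 2000) : ℝ) :=
        Real.rpow_le_rpow_of_exponent_le (by norm_num) (by norm_num)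
      rw [Real.rpow_neg_one] at h3
      have h4 : (1 : ℝ) / 27648 ≤ (m : ℝ) ^ (-(1 / 2000) : ℝ) := by
        rw [one_div]; linarith
      norm_num at h4 ⊢
      linarith
    · obtain ⟨a, b, hba, hab⟩ := ih (m / 2) (by omega) (by omega)
      obtain ⟨a', b', h2, h3⟩ := osc_step (C := 22) (L := m) (by omega) (by norm_num) h0 h1
        (fun k hk => hu k (by omega)) hab
      refine ⟨a', b', h2.trans ?_, h3⟩
      set z := (m : ℝ) ^ (-(1 / 2000) : ℝ) with hz
      have hz0 : 0 < z := Real.rpow_pos_of_pos hmp _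
      have hhalf : (m : ℝ) / 2.0001 ≤ ((m / 2 : ℕ) : ℝ) := by
        have h4 : m ≤ 2 * (m / 2) + 1 := by omega
        have h5 : (m : ℝ) ≤ 2 * ((m / 2 : ℕ) : ℝ) + 1 := by exact_mod_cast h4
        have h6 : (27648 : ℝ) ≤ m := by exact_mod_cast hge
        rw [div_le_iff₀ (by norm_num)]
        linarith
      have h4 : (((m / 2 : ℕ) : ℝ)) ^ (-(1 / 2000) : ℝ) ≤ 1.00035 * z := by
        calc (((m / 2 : ℕ) : ℝ)) ^ (-(1 / 2000) : ℝ) ≤ ((m : ℝ) / 2.0001) ^ (-(1 / 2000) : ℝ) := by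
              apply Real.rpow_le_rpow_of_nonpos (by positivity) hhalf (by norm_num)
          _ = z * (2.0001 : ℝ) ^ (1 / 2000 : ℝ) := by
              rw [Real.div_rpow hmp.le (by norm_num), Real.rpow_neg (by norm_num : (0 : ℝ) ≤ 2.0001),
                div_inv_eq_mul]
          _ ≤ z * 1.00035 := mul_le_mul_of_nonneg_left two_pow hz0.le
          _ = 1.00035 * z := by ring
      have h5 : g m ≤ z := by
        unfold g
        exact Real.rpow_le_rpow_of_exponent_le hm1 (by norm_num)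
      have h6 : b - a ≤ 2 * 10 ^ 7 * (1.00035 * z) :=
        hba.trans (mul_le_mul_of_nonneg_left h4 (by positivity))
      have h7 : (1 - 1 / 1920) * (b - a) ≤ (1 - 1 / 1920) * (2 * 10 ^ 7 * (1.00035 * z)) :=
        mul_le_mul_of_nonneg_left h6 (by norm_num)
      have h8 : (1 - 1 / 1920 : ℝ) * (2 * 10 ^ 7 * (1.00035 * z)) + 102 * (22 * z) ≤
          2 * 10 ^ 7 * z := by
        have e : (1 - 1 / 1920 : ℝ) * (2 * 10 ^ 7 * (1.00035 * z)) + 102 * (22 * z) =
            ((1 - 1 / 1920 : ℝ) * (2 * 10 ^ 7 * 1.00035) + 102 * 22) * z := by ring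
        rw [e]
        apply mul_le_mul_of_nonneg_right _ hz0.le
        norm_num
      linarith

/-- **power rate** -/
theorem rate {B : Set ℝ} (hB : Pool.Agent.W40.Ch.Inv B) : ∃ D : ℝ, Tendsto (bb B) atTop (𝓝 D) ∧
    ∀ m : ℕ, 1 ≤ m → |bb B m - D| ≤ 2 * 10 ^ 7 * (m : ℝ) ^ (-(1 / 2000) : ℝ) := by
  obtain ⟨D, hD⟩ := dens_exists hB
  refine ⟨D, hD, fun m hm => ?_⟩
  obtain ⟨a, b, h1, h2⟩ := osc (bb_nonneg B) (bb_le_one B) (fun m hm => harm hB hm) m hm
  have h3 : a ≤ D := by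
    apply ge_of_tendsto hD
    filter_upwards [eventually_ge_atTop m] with k hk using (h2 k hk).1
  have h4 : D ≤ b := by
    apply le_of_tendsto hD
    filter_upwards [eventually_ge_atTop m] with k hk using (h2 k hk).2
  have h5 := h2 m le_rfl
  rw [abs_le]
  constructor <;> linarith [h5.1, h5.2]

end Pool.Agent.TH237.CH
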